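import Pool.Agent.H23.RG.Stm2

set_option autoImplicit false
open Classical Filter

namespace Pool.Agent.H23.RG

theorem hin_or (hUNI : S_UNI) (hMON : S_MON) {X : Type} [Fintype X] (p : ℝ) (h0 : 0 ≤ p)
    (h1 : p ≤ 1) (Q R : Finset X → Prop) :
    mu p (fun A => Q A ∨ R A) ≤ mu p Q + mu p R := by
  have h := hUNI X p h0 h1 Bool Finset.univ (fun b => if b then Q else R)
  simp only [Fintype.sum_bool] at h
  refine le_trans (hMON X p h0 h1 _ _ ?_) h
  intro A hA
  rcases hA with hA | hA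
  · exact ⟨true, Finset.mem_univ _, by simpa using hA⟩
  · exact ⟨false, Finset.mem_univ _, by simpa using hA⟩

theorem HIN_part (hMON : S_MON) (hUNI : S_UNI) (hBIG : S_BIG) (hEND : S_END) (hLFA : S_LFA)
    (hLFB : S_LFB) (hMID : S_MID) (hCON : S_CON) : S_HIN := by
  intro d hd
  obtain ⟨c1, hc1, h1⟩ := hBIG d (1/4) hd (by norm_num)
  obtain ⟨c2, hc2, h2⟩ := hLFA d hd
  obtain ⟨c3, hc3, h3⟩ := hLFB d hd
  refine ⟨max c1 (max c2 c3), lt_max_of_lt_left hc1, ?_⟩
  intro c hc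
  have hc1' : c1 ≤ c := (le_max_left _ _).trans hc
  have hc2' : c2 ≤ c := ((le_max_left _ _).trans (le_max_right _ _)).trans hc
  have hc3' : c3 ≤ c := ((le_max_right _ _).trans (le_max_right _ _)).trans hc
  have hc0 : 0 < c := hc1.trans_le hc1'
  obtain ⟨ε, hε, h4⟩ := hMID c hc0
  have h5 := hCON d c hd hc0
  have h1 := h1 c hc1'
  have h2 := h2 c hc2'
  have h3 := h3 c (ε/2) hc3' (by positivity)
  have hsum := (((h1.add h2).add h3).add h4).add h5
  simp only [add_zero] at hsum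
  have hl1 : ∀ᶠ n : ℕ in atTop, c ≤ (n : ℝ) :=
    (tendsto_natCast_atTop_atTop (R := ℝ)).eventually_ge_atTop c
  have hl2 : ∀ᶠ n : ℕ in atTop, 2 * ((d : ℝ) + 4) ≤ (n : ℝ) :=
    (tendsto_natCast_atTop_atTop (R := ℝ)).eventually_ge_atTop _
  have hl3 : ∀ᶠ n : ℕ in atTop, ((d : ℝ) + 2) / (ε / 2) ≤ (n : ℝ) :=
    (tendsto_natCast_atTop_atTop (R := ℝ)).eventually_ge_atTop _
  refine tendsto_of_tendsto_of_tendsto_of_le_of_le' tendsto_const_nhds hsum ?_ ?_
  · filter_upwards [hl1] with n hn1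
    have hn0 : (0 : ℝ) < n := hc0.trans_le hn1
    have hp0 : 0 ≤ c / (n : ℝ) := by positivity
    have hp1 : c / (n : ℝ) ≤ 1 := (div_le_one hn0).mpr hn1
    refine le_trans (le_of_eq ?_) (hMON (E n) (c / n) hp0 hp1 (fun _ => False) _
      (fun _ h => h.elim))
    simp [mu]
  · filter_upwards [hl1, hl2, hl3] with n hn1 hn2 hn3
    have hn0 : (0 : ℝ) < n := hc0.trans_le hn1
    have hp0 : 0 ≤ c / (n : ℝ) := by positivity
    have hp1 : c / (n : ℝ) ≤ 1 := (div_le_one hn0).mpr hn1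
    have hn3' : (d : ℝ) + 2 ≤ ε / 2 * n := by
      rw [div_le_iff₀ (by positivity)] at hn3
      linarith
    refine le_trans (hMON (E n) (c / n) hp0 hp1 _ _ ?_)
      (le_trans (hin_or hUNI hMON _ hp0 hp1 _ _) (add_le_add
        (le_trans (hin_or hUNI hMON _ hp0 hp1 _ _) (add_le_add
          (le_trans (hin_or hUNI hMON _ hp0 hp1 _ _) (add_le_add
            (hin_or hUNI hMON _ hp0 hp1 _ _) le_rfl)) le_rfl)) le_rfl))
    intro B hB
    by_contra hcon
    simp only [not_or] at hcon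
    obtain ⟨⟨⟨⟨e1, e2⟩, e3⟩, e4⟩, e5⟩ := hcon
    rw [not_not] at e1
    obtain ⟨A, hA, hAn⟩ := e1
    obtain ⟨A', hA'mem, hA'max⟩ := Finset.exists_max_image
      (Finset.univ.filter (fun T : Finset (Fin n) => A ⊆ T ∧ Rig d (gr B) T)) Finset.card
      ⟨A, Finset.mem_filter.mpr ⟨Finset.mem_univ _, subset_rfl, hA⟩⟩
    obtain ⟨-, hAA', hA'⟩ := Finset.mem_filter.mp hA'mem
    have hcard : (A.card : ℝ) ≤ (A'.card : ℝ) := by exact_mod_cast Finset.card_le_card hAA'
    have hcard2 : (3 : ℝ) / 4 * n ≤ (A'.card : ℝ) := by linarith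
    have hd4 : d + 4 ≤ A'.card := by
      have hd0 : (0 : ℝ) ≤ d := Nat.cast_nonneg d
      have : ((d + 4 : ℕ) : ℝ) ≤ (A'.card : ℝ) := by push_cast; linarith
      exact_mod_cast this
    have h34 : 3 * n ≤ 4 * A'.card := by
      have : ((3 * n : ℕ) : ℝ) ≤ ((4 * A'.card : ℕ) : ℝ) := by push_cast; linarith
      exact_mod_cast this
    have hA'n : A'.card ≤ n := by simpa using Finset.card_le_univ A'
    have hall := hEND d n ⌈ε / 2 * n⌉₊ B A' hd hA'
      (fun T hT hTr => (Finset.eq_of_subset_of_card_le hT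
        (hA'max T (Finset.mem_filter.mpr ⟨Finset.mem_univ _, hAA'.trans hT, hTr⟩))).symm)
      (by omega) (by omega)
      (fun S hS h2S hF => by
        by_contra hlt
        exact e2 ⟨S, hS, h2S, hF, not_le.mp hlt⟩)
      (fun S hS h2S hF => by
        by_contra hlt
        exact e3 ⟨S, (Nat.le_ceil _).trans (by exact_mod_cast hS), h2S, hF, not_lt.mp hlt⟩)
      (fun S h4S hSm => by
        by_contra hlt
        refine e4 ⟨S, h4S, ?_, not_lt.mp hlt⟩
        have h6 : (S.card : ℝ) ≤ (⌈ε / 2 * n⌉₊ : ℝ) + d := by exact_mod_cast hSm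
        have h7 : (⌈ε / 2 * n⌉₊ : ℝ) < ε / 2 * n + 1 := Nat.ceil_lt_add_one (by positivity)
        linarith)
    have heq : A' = Finset.univ.filter (Hat d (gr B)) := by
      ext v
      simp only [Finset.mem_filter, Finset.mem_univ, true_and]
      refine ⟨fun hv => ?_, fun hv => hall v hv⟩
      by_contra hnv
      exact e5 ⟨A', hA', by omega, fun h => hnv (h v hv)⟩
    exact hB (heq ▸ hA')

end Pool.Agent.H23.RG
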