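import Pool.Agent.H23.RG.Stm2

set_option autoImplicit false
open Classical Filter

namespace Pool.Agent.H23.RG

/-- nonvanishing determinant for points in general position -/
theorem plc_det14 {d n : ℕ} (q : Fin n → Fin d → ℝ)
    (hq : ∀ u : Fin (d + 1) → Fin n, Function.Injective u →
      AffineIndependent ℝ (fun i => q (u i)))
    (x : Fin n) (v : Fin d → Fin n) (hx : ∀ i, x ≠ v i) (hv : Function.Injective v) :
    (Matrix.of (fun i k => q x k - q (v i) k) : Matrix (Fin d) (Fin d) ℝ).det ≠ 0 := by
  have hinj : Function.Injective (Fin.cons x v : Fin (d + 1) → Fin n) := by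
    rw [Fin.cons_injective_iff]
    exact ⟨fun ⟨i, hi⟩ => hx i hi.symm, hv⟩
  have h := hq _ hinj
  rw [affineIndependent_iff_linearIndependent_vsub ℝ _ (0 : Fin (d + 1))] at h
  have h2 : LinearIndependent ℝ (fun i : Fin d => q (v i) - q x) := by
    have := h.comp (fun i : Fin d => (⟨i.succ, Fin.succ_ne_zero i⟩ : {x : Fin (d+1) // x ≠ 0}))
      (fun i j hij => Fin.succ_injective _ (by simpa using hij))
    simpa [Function.comp_def] using this
  have h3 : LinearIndependent ℝ (Matrix.of (fun i k => q (v i) k - q x k) :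
      Matrix (Fin d) (Fin d) ℝ).row := h2
  have h4 : (Matrix.of (fun i k => q (v i) k - q x k) : Matrix (Fin d) (Fin d) ℝ).det ≠ 0 := by
    rw [Matrix.linearIndependent_rows_iff_isUnit, Matrix.isUnit_iff_isUnit_det] at h3
    exact h3.ne_zero
  have h5 : (Matrix.of (fun i k => q x k - q (v i) k) : Matrix (Fin d) (Fin d) ℝ) =
      -(Matrix.of (fun i k => q (v i) k - q x k) : Matrix (Fin d) (Fin d) ℝ) := by
    ext i k
    simp
  rw [h5, Matrix.det_neg]
  exact mul_ne_zero (pow_ne_zero _ (by norm_num)) h4

theorem PLC_part : S_PLC := by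
  intro d n q R N r r' hd hq hR hr hr' hne hN
  -- choose a
  obtain ⟨a, haN, haN'⟩ : ∃ a, a ∈ N r ∧ a ∉ N r' := by
    by_contra hcon
    have hcon' : N r ⊆ N r' := fun a ha => by
      by_contra h
      exact hcon ⟨a, ha, h⟩
    exact hN (Finset.eq_of_subset_of_card_le hcon' (by rw [(hR r hr).2, (hR r' hr').2]))
  have hdisj : ∀ u ∈ R, ∀ x ∈ N u, x ∉ R := fun u hu x hx =>
    Finset.disjoint_left.mp (hR u hu).1 hx
  have haR : a ∉ R := hdisj r hr a haN
  let Q : Fin n → Fin d → Polynomial ℝ := fun v k =>
    if v = r' then Polynomial.C (q r k) + Polynomial.X * Polynomial.C (q a k - q r k)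
    else Polynomial.C (q v k)
  have hcard : ∀ u ∈ R, ∀ w ∈ R, (insert w (N u)).card = d := by
    intro u hu w hw
    rw [Finset.card_insert_of_notMem (fun h => hdisj u hu w h hw), (hR u hu).2]
    omega
  have hen : ∀ u ∈ R, ∀ w ∈ R, ∃ v : Fin d → Fin n, Function.Injective v ∧
      (∀ x, x ∈ insert w (N u) ↔ ∃ i, v i = x) := by
    intro u hu w hw
    refine ⟨fun i => (insert w (N u)).orderEmbOfFin (hcard u hu w hw) i,
      ((insert w (N u)).orderEmbOfFin (hcard u hu w hw)).injective, fun x => ?_⟩
    have := Finset.range_orderEmbOfFin (insert w (N u)) (hcard u hu w hw)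
    rw [← Finset.mem_coe, ← this]
    rfl
  have hpol : ∀ u ∈ R, ∀ w ∈ R, u ≠ w → ¬ (u = r ∧ w = r') →
      ∃ P : Polynomial ℝ, P ≠ 0 ∧ ∀ s : ℝ, P.eval s ≠ 0 → ∀ y : Fin d → ℝ,
        (∀ b ∈ N u, ∑ k, ((Q u k).eval s - (Q b k).eval s) * y k = 0) →
        ∑ k, ((Q u k).eval s - (Q w k).eval s) * y k = 0 → y = 0 := by
    intro u hu w hw huw hcase
    obtain ⟨v, hvinj, hv⟩ := hen u hu w hw
    have heval : ∀ s : ℝ, ((Matrix.of (fun i k => Q u k - Q (v i) k) :
        Matrix (Fin d) (Fin d) (Polynomial ℝ)).det).eval s =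
        (Matrix.of (fun i k => (Q u k).eval s - (Q (v i) k).eval s) :
          Matrix (Fin d) (Fin d) ℝ).det := by
      intro s
      have h1 := RingHom.map_det (Polynomial.evalRingHom s)
        (Matrix.of (fun i k => Q u k - Q (v i) k) : Matrix (Fin d) (Fin d) (Polynomial ℝ))
      rw [Polynomial.coe_evalRingHom] at h1
      rw [h1]
      congr 1
      ext i k
      simp
    have hvmem : ∀ i, v i = w ∨ v i ∈ N u := fun i =>
      Finset.mem_insert.mp ((hv _).mpr ⟨i, rfl⟩)
    refine ⟨(Matrix.of (fun i k => Q u k - Q (v i) k) :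
      Matrix (Fin d) (Fin d) (Polynomial ℝ)).det, ?_, ?_⟩
    · -- nonzero
      by_cases hur : u = r'
      · -- s = 1
        intro h0
        have h1 := heval 1
        rw [h0, Polynomial.eval_zero] at h1
        have hvr : ∀ i, v i ≠ r' := by
          intro i hi
          rcases hvmem i with h | h
          · exact huw (hur.trans (hi.symm.trans h))
          · exact hdisj u hu _ h (hi ▸ hr')
        refine plc_det14 q hq a v (fun i hi => ?_) hvinj ?_
        · rcases hvmem i with h | h
          · exact haR (hi ▸ h ▸ hw)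
          · rw [hur] at h
            exact haN' (hi ▸ h)
        · rw [h1]
          congr 1
          ext i k
          simp [Q, hur, hvr i]
      · -- s = 0
        intro h0
        have h1 := heval 0
        rw [h0, Polynomial.eval_zero] at h1
        let σ : Fin n → Fin n := fun x => if x = r' then r else x
        refine plc_det14 q hq u (fun i => σ (v i)) (fun i hi => ?_) (fun i j hij => ?_) ?_
        · simp only [σ] at hi
          split_ifs at hi with h2
          · rcases hvmem i with h | h
            · exact hcase ⟨hi, h ▸ h2⟩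
            · exact hdisj u hu _ h (h2 ▸ hr')
          · rcases hvmem i with h | h
            · exact huw (hi.trans h)
            · exact hdisj u hu _ h (hi ▸ hu)
        · apply hvinj
          simp only [σ] at hij
          split_ifs at hij with h2 h3 h3
          · rw [h2, h3]
          · exfalso
            have hw' : w = r' := by
              rcases hvmem i with h | h
              · rw [← h, h2]
              · exact absurd (h2 ▸ hr') (hdisj u hu _ h)
            rcases hvmem j with h | h
            · exact h3 (h.trans hw')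
            · exact hdisj u hu _ h (hij ▸ hr)
          · exfalso
            have hw' : w = r' := by
              rcases hvmem j with h | h
              · rw [← h, h3]
              · exact absurd (h3 ▸ hr') (hdisj u hu _ h)
            rcases hvmem i with h | h
            · exact h2 (h.trans hw')
            · exact hdisj u hu _ h (hij ▸ hr)
          · exact hij
        · rw [h1]
          congr 1
          ext i k
          by_cases h2 : v i = r'
          · simp [Q, hur, h2, σ]
          · simp [Q, hur, h2, σ]
    · intro s hs y hy1 hy2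
      have hmap : ((Matrix.of (fun i k => (Q u k).eval s - (Q (v i) k).eval s) :
          Matrix (Fin d) (Fin d) ℝ)).det ≠ 0 := by
        rw [← heval s]; exact hs
      refine Matrix.eq_zero_of_mulVec_eq_zero hmap ?_
      funext i
      have hi := hvmem i
      simp only [Matrix.mulVec, dotProduct, Matrix.of_apply, Pi.zero_apply]
      rcases hi with hi | hi
      · rw [hi]; exact hy2
      · exact hy1 _ hi
  choose! P hP0 hP using hpol
  -- choose s
  obtain ⟨s, hs⟩ : ∃ s : ℝ, (∏ e ∈ (R ×ˢ R).filter (fun e => e.1 ≠ e.2 ∧ ¬ (e.1 = r ∧ e.2 = r')),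
      P e.1 e.2).eval s ≠ 0 := by
    by_contra hcon
    have h0 : (∏ e ∈ (R ×ˢ R).filter (fun e => e.1 ≠ e.2 ∧ ¬ (e.1 = r ∧ e.2 = r')),
      P e.1 e.2) = 0 := by
      apply Polynomial.funext
      intro s
      by_contra h
      exact hcon ⟨s, by simpa using h⟩
    rw [Finset.prod_eq_zero_iff] at h0
    obtain ⟨e, he, he0⟩ := h0
    rw [Finset.mem_filter, Finset.mem_product] at he
    exact hP0 e.1 he.1.1 e.2 he.1.2 he.2.1 he.2.2 he0
  refine ⟨fun v k => (Q v k).eval s, ?_, ?_, ?_⟩
  · intro v hv
    funext k
    simp [Q, hv]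
  · intro u hu w hw huw hcase y hy1 hy2
    refine hP u hu w hw huw hcase s ?_ y hy1 hy2
    intro h0
    apply hs
    rw [Polynomial.eval_prod]
    exact Finset.prod_eq_zero (i := (u, w)) (Finset.mem_filter.mpr
      ⟨Finset.mem_product.mpr ⟨hu, hw⟩, huw, hcase⟩) h0
  · intro y hy
    have h1 := hy a haN
    have har' : a ≠ r' := fun h => haR (h ▸ hr')
    have h2 : ∑ k, ((Q r k).eval s - (Q r' k).eval s) * y k =
        s * ∑ k, ((Q r k).eval s - (Q a k).eval s) * y k := by
      rw [Finset.mul_sum]
      refine Finset.sum_congr rfl (fun k _ => ?_)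
      simp only [Q, hne, har', if_true, if_false, Polynomial.eval_add, Polynomial.eval_mul,
        Polynomial.eval_C, Polynomial.eval_X]
      ring
    simp only at h1 ⊢
    rw [h2, h1, mul_zero]

end Pool.Agent.H23.RG
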